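import Mathlib
import Pool.Agent.W203.WS.Stm

/-!
WS-ID: the Fourier identity.
-/

set_option autoImplicit false

open MeasureTheory Finset

namespace Pool.Agent.W168.WS

open Pool.Agent.W203.WS

theorem e_add (x y : ℝ) : e (x + y) = e x * e y := by
  unfold e
  rw [← Complex.exp_add]
  congr 1
  push_cast
  ring

theorem norm_e (x : ℝ) : ‖e x‖ = 1 := by
  unfold e
  have h : 2 * (Real.pi : ℂ) * Complex.I * (x : ℂ) = ((2 * Real.pi * x : ℝ) : ℂ) * Complex.I := by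
    push_cast
    ring
  rw [h, Complex.norm_exp_ofReal_mul_I]

theorem e_sum {ι : Type} (s : Finset ι) (f : ι → ℝ) : e (∑ i ∈ s, f i) = ∏ i ∈ s, e (f i) := by
  classical
  induction s using Finset.induction_on with
  | empty => simp [e]
  | insert a s ha ih => rw [Finset.sum_insert ha, Finset.prod_insert ha, e_add, ih]

theorem continuous_e : Continuous e := by
  unfold e
  fun_prop

theorem Kh_nonneg {ε : ℝ} (hε : 0 < ε) (t : ℝ) : 0 ≤ Kh ε t := by
  unfold Kh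
  positivity

theorem continuous_Kh (ε : ℝ) : Continuous (Kh ε) := by
  unfold Kh
  fun_prop

theorem integrable_Kh {ε : ℝ} (hε : 0 < ε) : Integrable (Kh ε) := by
  have h1 : Integrable (fun t : ℝ => ε * Real.exp (-(Real.pi * ε ^ 2) * t ^ 2)) :=
    (integrable_exp_neg_mul_sq (by positivity)).const_mul ε
  convert h1 using 2 with t
  unfold Kh
  congr 2
  ring

/-- the Fourier transform of the Gaussian -/
theorem Kr_eq {ε : ℝ} (hε : 0 < ε) (x : ℝ) :
    ((Kr ε x : ℝ) : ℂ) = ∫ t : ℝ, ((Kh ε t : ℝ) : ℂ) * e (t * x) := by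
  have hpi := Real.pi_pos
  have hb : 0 < (((Real.pi * ε ^ 2 : ℝ)) : ℂ).re := by
    rw [Complex.ofReal_re]
    positivity
  have h1 := fourierIntegral_gaussian hb ((2 * Real.pi * x : ℝ) : ℂ)
  have h2 : ∀ t : ℝ, ((Kh ε t : ℝ) : ℂ) * e (t * x)
      = (ε : ℂ) * (Complex.exp (Complex.I * ((2 * Real.pi * x : ℝ) : ℂ) * (t : ℂ))
        * Complex.exp (-((Real.pi * ε ^ 2 : ℝ) : ℂ) * (t : ℂ) ^ 2)) := by
    intro t
    unfold Kh e
    rw [← Complex.exp_add]
    push_cast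
    rw [mul_assoc, ← Complex.exp_add]
    congr 2
    ring
  rw [integral_congr_ae (Filter.Eventually.of_forall h2), integral_const_mul, h1]
  have h3 : ((Real.pi : ℂ) / ((Real.pi * ε ^ 2 : ℝ) : ℂ)) = (((1 / ε) ^ 2 : ℝ) : ℂ) := by
    push_cast
    have : (Real.pi : ℂ) ≠ 0 := by exact_mod_cast hpi.ne'
    have h4 : (ε : ℂ) ≠ 0 := by exact_mod_cast hε.ne'
    field_simp
  have h4 : ((((1 / ε) ^ 2 : ℝ) : ℂ)) ^ (1 / 2 : ℂ) = ((1 / ε : ℝ) : ℂ) := by
    have h5 : (1 / 2 : ℂ) = (((1 / 2 : ℝ)) : ℂ) := by push_cast; ring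
    rw [h5, ← Complex.ofReal_cpow (by positivity), ← Real.sqrt_eq_rpow, Real.sqrt_sq (by positivity)]
  rw [h3, h4]
  have h5 : (-((2 * Real.pi * x : ℝ) : ℂ) ^ 2 / (4 * ((Real.pi * ε ^ 2 : ℝ) : ℂ)))
      = ((-Real.pi * (x / ε) ^ 2 : ℝ) : ℂ) := by
    have : (Real.pi : ℂ) ≠ 0 := by exact_mod_cast hpi.ne'
    have h4 : (ε : ℂ) ≠ 0 := by exact_mod_cast hε.ne'
    push_cast
    field_simp
    ring
  rw [h5]
  unfold Kr
  have h6 : (ε : ℂ) ≠ 0 := by exact_mod_cast hε.ne'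
  push_cast
  field_simp

theorem integrable_Kh_e {ε : ℝ} (hε : 0 < ε) (x : ℝ) :
    Integrable (fun t : ℝ => ((Kh ε t : ℝ) : ℂ) * e (t * x)) := by
  refine (integrable_Kh hε).mono' ?_ (Filter.Eventually.of_forall fun t => ?_)
  · exact ((Complex.continuous_ofReal.comp (continuous_Kh ε)).mul
      (continuous_e.comp (continuous_id.mul continuous_const))).aestronglyMeasurable
  · rw [norm_mul, norm_e, mul_one, Complex.norm_real, Real.norm_of_nonneg (Kh_nonneg hε t)]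

/-- the count -/
theorem rr_eq (k s P : ℕ) {ε : ℝ} (hε : 0 < ε) (M : ℝ) (θ : Fin s → ℝ) :
    Integrable (fun t : ℝ => ((Kh ε t : ℝ) : ℂ) * e (t * (-M)) * ∏ i, S k P t (θ i)) ∧
    ((rr k s P ε M θ : ℝ) : ℂ)
      = ∫ t : ℝ, ((Kh ε t : ℝ) : ℂ) * e (t * (-M)) * ∏ i, S k P t (θ i) := by
  have h1 : ∀ t : ℝ, ((Kh ε t : ℝ) : ℂ) * e (t * (-M)) * ∏ i, S k P t (θ i)
      = ∑ x ∈ Fintype.piFinset (fun _ : Fin s => Ico P (4 * P)),
        ((Kh ε t : ℝ) : ℂ) * e (t * ((∑ i, ((x i : ℝ) + θ i) ^ k) - M)) := by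
    intro t
    unfold S
    rw [Finset.prod_univ_sum, Finset.mul_sum]
    refine Finset.sum_congr rfl (fun x _ => ?_)
    rw [← e_sum, ← Finset.mul_sum, mul_assoc, ← e_add]
    congr 2
    ring
  have h2 : (fun t : ℝ => ((Kh ε t : ℝ) : ℂ) * e (t * (-M)) * ∏ i, S k P t (θ i))
      = fun t => ∑ x ∈ Fintype.piFinset (fun _ : Fin s => Ico P (4 * P)),
        ((Kh ε t : ℝ) : ℂ) * e (t * ((∑ i, ((x i : ℝ) + θ i) ^ k) - M)) := funext h1
  rw [h2]
  refine ⟨integrable_finsetSum _ (fun x _ => integrable_Kh_e hε _), ?_⟩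
  rw [integral_finsetSum _ (fun x _ => integrable_Kh_e hε _)]
  unfold rr
  rw [Complex.ofReal_sum]
  exact Finset.sum_congr rfl (fun x _ => Kr_eq hε _)

/-- the expected number -/
theorem Jm_eq (k s P : ℕ) {ε : ℝ} (hε : 0 < ε) (M : ℝ) :
    Integrable (fun t : ℝ => ((Kh ε t : ℝ) : ℂ) * e (t * (-M)) * J1 k P t ^ s) ∧
    ((Jm k s P ε M : ℝ) : ℂ)
      = ∫ t : ℝ, ((Kh ε t : ℝ) : ℂ) * e (t * (-M)) * J1 k P t ^ s := by
  have hP : (P : ℝ) ≤ 4 * P := by
    have : (0 : ℝ) ≤ P := Nat.cast_nonneg P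
    linarith
  obtain ⟨μ, hμ⟩ : ∃ μ : Measure (Fin s → ℝ), μ = (volume : Measure (Fin s → ℝ)).restrict
    (Set.pi Set.univ (fun _ : Fin s => Set.Icc (P : ℝ) (4 * P))) := ⟨_, rfl⟩
  have hμpi : μ = Measure.pi (fun _ : Fin s => (volume : Measure ℝ).restrict
      (Set.Icc (P : ℝ) (4 * P))) := by
    rw [hμ, volume_pi, Measure.restrict_pi_pi]
  have hfin : IsFiniteMeasure μ := by
    rw [hμpi]
    infer_instance
  let F : (Fin s → ℝ) → ℝ → ℂ := fun u t => ((Kh ε t : ℝ) : ℂ) * e (t * ((∑ i, (u i) ^ k) - M))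
  have hF : Integrable (Function.uncurry F) (μ.prod volume) := by
    have h0 : Integrable (fun z : (Fin s → ℝ) × ℝ => (1 : ℝ) * Kh ε z.2) (μ.prod volume) :=
      Integrable.mul_prod (f := fun _ : Fin s → ℝ => (1 : ℝ)) (integrable_const _) (integrable_Kh hε)
    refine h0.mono' ?_ (Filter.Eventually.of_forall fun z => ?_)
    · have hc : Continuous (Function.uncurry F) := by
        refine (Complex.continuous_ofReal.comp ((continuous_Kh ε).comp continuous_snd)).mul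
          (continuous_e.comp ?_)
        fun_prop
      exact hc.aestronglyMeasurable
    · show ‖((Kh ε z.2 : ℝ) : ℂ) * e (z.2 * ((∑ i, (z.1 i) ^ k) - M))‖ ≤ 1 * Kh ε z.2
      rw [norm_mul, norm_e, mul_one, one_mul, Complex.norm_real,
        Real.norm_of_nonneg (Kh_nonneg hε _)]
  have hJ : ∀ t : ℝ, ∫ u, ∏ i : Fin s, e (t * (u i) ^ k) ∂μ = J1 k P t ^ s := by
    intro t
    rw [hμpi, integral_fintype_prod_eq_pow (fun u : ℝ => e (t * u ^ k)), Fintype.card_fin]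
    congr 1
    unfold J1
    rw [intervalIntegral.integral_of_le hP, integral_Icc_eq_integral_Ioc]
  have hinner : ∀ t : ℝ, ∫ u, F u t ∂μ = ((Kh ε t : ℝ) : ℂ) * e (t * (-M)) * J1 k P t ^ s := by
    intro t
    have h1 : ∀ u : Fin s → ℝ, F u t
        = (((Kh ε t : ℝ) : ℂ) * e (t * (-M))) * ∏ i, e (t * (u i) ^ k) := by
      intro u
      show ((Kh ε t : ℝ) : ℂ) * e (t * ((∑ i, (u i) ^ k) - M)) = _
      rw [← e_sum, ← Finset.mul_sum, mul_assoc, ← e_add]
      congr 2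
      ring
    rw [integral_congr_ae (Filter.Eventually.of_forall h1), integral_const_mul, hJ t]
  have hint := hF.integral_prod_right
  refine ⟨?_, ?_⟩
  · refine hint.congr (Filter.Eventually.of_forall fun t => ?_)
    exact hinner t
  · unfold Jm
    rw [← integral_complex_ofReal, ← hμ]
    have h1 : ∀ u : Fin s → ℝ, ((Kr ε ((∑ i, (u i) ^ k) - M) : ℝ) : ℂ) = ∫ t, F u t :=
      fun u => Kr_eq hε _
    rw [integral_congr_ae (Filter.Eventually.of_forall h1), integral_integral_swap hF]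
    exact integral_congr_ae (Filter.Eventually.of_forall hinner)

theorem t_ID : S_ID := by
  intro k s P ε M θ hε
  obtain ⟨hi1, h1⟩ := rr_eq k s P hε M θ
  obtain ⟨hi2, h2⟩ := Jm_eq k s P hε M
  have h3 : ((rr k s P ε M θ - Jm k s P ε M : ℝ) : ℂ)
      = ∫ t : ℝ, ((Kh ε t : ℝ) : ℂ) * e (t * (-M)) * ((∏ i, S k P t (θ i)) - J1 k P t ^ s) := by
    rw [Complex.ofReal_sub, h1, h2, ← integral_sub hi1 hi2]
    refine integral_congr_ae (Filter.Eventually.of_forall fun t => ?_)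
    show _ - _ = _
    ring
  have h4 : |rr k s P ε M θ - Jm k s P ε M|
      = ‖((rr k s P ε M θ - Jm k s P ε M : ℝ) : ℂ)‖ := by
    rw [Complex.norm_real, Real.norm_eq_abs]
  rw [h4, h3]
  refine (norm_integral_le_integral_norm _).trans (le_of_eq ?_)
  unfold Er
  refine integral_congr_ae (Filter.Eventually.of_forall fun t => ?_)
  show ‖((Kh ε t : ℝ) : ℂ) * e (t * (-M)) * ((∏ i, S k P t (θ i)) - J1 k P t ^ s)‖ = _
  rw [norm_mul, norm_mul, norm_e, mul_one, Complex.norm_real,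
    Real.norm_of_nonneg (Kh_nonneg hε t)]

end Pool.Agent.W168.WS
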